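import Pool.Agent.Lib.MP_b5021c_nt.IfaceL2

/-!
# Board b5, row JVL: induction in steps of `1/4`
-/

namespace Pool.Agent.B5.H45

open Pool.Agent.MP_b5021c_nt (Eis)

/-- Row JVL. -/
theorem jvl (h1 : JVTS) : JVLS := by
  have key : ∀ n : ℕ, ∀ N : ℝ, N ≤ (n : ℝ) / 4 → BdV Eis N (bVL N) := by
    intro n
    induction n with
    | zero =>
      intro N hN P L _ _ _ _ _ phi D hD hV
      have h3 : 1 ≤ N := hV.1
      norm_num at hN
      linarith
    | succ n ih =>
      intro N hN P L _ _ _ _ _ phi D hD hV
      rcases Nat.lt_or_ge (Module.finrank ℤ L) 2 with h4 | h4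
      · have h5 : (Module.finrank ℤ L : ℝ) ≤ 1 := by
          exact_mod_cast Nat.lt_succ_iff.mp h4
        exact h5.trans (le_max_left _ _)
      · apply h1 P L phi D N hD hV h4
        intro x hx
        apply ih
        push_cast at hN
        linarith
  intro N
  obtain ⟨n, hn⟩ := exists_nat_ge (4 * N)
  exact key n N (by linarith)

end Pool.Agent.B5.H45
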